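import Pool.Agent.Lib.MP_3b5712_an.Global

/-!
# Continuous, open and discrete Sobolev maps whose Jacobian changes sign

Inside every nonempty open subset `Ω` of `ℝ³` the Jacobian of a suitable continuous, open and discrete
map `f : ℝ³ → ℝ³`, which belongs to `W^{1,1}(D, ℝ³)` for every bounded open set `D`, takes the value `1`
on a set of positive measure and the value `-1` on a nonempty open set.
-/

set_option autoImplicit false

open Filter Topology Set MeasureTheory

namespace Pool.Agent.Results.MP_3b5712_an.SignChange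

/-- three-dimensional space -/
abbrev R3 := Fin 3 → ℝ

/-- `g` is the weak (distributional) differential of `f` on the open set `Ω`:
`∫_Ω f_i ∂_j φ = - ∫_Ω g_{ij} φ` for all test functions `φ ∈ C_c^∞(Ω)`. -/
def IsWeakDifferential (Ω : Set R3) (f : R3 → R3) (g : R3 → Matrix (Fin 3) (Fin 3) ℝ) : Prop :=
  ∀ (i j : Fin 3) (φ : R3 → ℝ),
    ContDiff ℝ ((⊤ : ℕ∞) : WithTop ℕ∞) φ → HasCompactSupport φ → tsupport φ ⊆ Ω →
    ∫ x in Ω, f x i * fderiv ℝ φ x (Pi.single j (1 : ℝ)) = -∫ x in Ω, g x i j * φ x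

/-- `f` is in the Sobolev space `W^{1,1}(Ω, ℝ³)` with weak differential `g` -/
structure SobolevOneOne (Ω : Set R3) (f : R3 → R3) (g : R3 → Matrix (Fin 3) (Fin 3) ℝ) : Prop where
  integrable_map : ∀ i, IntegrableOn (fun x => f x i) Ω
  integrable_differential : ∀ i j, IntegrableOn (fun x => g x i j) Ω
  weak : IsWeakDifferential Ω f g

/-- no fibre of `f` has an accumulation point -/
def IsDiscreteMap (f : R3 → R3) : Prop :=
  ∀ x y, ¬ AccPt x (𝓟 (f ⁻¹' {y}))

theorem integral_affine (u : R3 → ℝ) (x₀ : R3) (r : ℝ) :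
    ∫ x, u (r⁻¹ • (x - x₀)) = |r ^ 3| * ∫ x, u x := by
  rw [integral_sub_right_eq_self (fun x => u (r⁻¹ • x)) x₀,
    Measure.integral_comp_inv_smul volume u r]
  simp

theorem integral_fderiv_zero (ψ : R3 → ℝ) (hψ : ContDiff ℝ ((⊤ : ℕ∞) : WithTop ℕ∞) ψ)
    (hs : HasCompactSupport ψ) (e : R3) : ∫ x, fderiv ℝ ψ x e = 0 := by
  have hc : Continuous (fun x => fderiv ℝ ψ x e) :=
    (hψ.continuous_fderiv (by simp)).clm_apply continuous_const
  have hsc : HasCompactSupport (fun x => fderiv ℝ ψ x e) := hs.fderiv_apply (𝕜 := ℝ) _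
  have key := integral_mul_fderiv_eq_neg_fderiv_mul_of_integrable (𝕜 := ℝ)
    (μ := (volume : Measure R3)) (f := fun _ : R3 => (1 : ℝ)) (g := ψ) (v := e)
    (by simp) (by simpa using hc.integrable_of_hasCompactSupport hsc)
    (by simpa using hψ.continuous.integrable_of_hasCompactSupport hs)
    (fun x _ => differentiableAt_const _) (fun x _ => hψ.differentiable (by simp) x)
  simpa using key

theorem result (Ω : Set R3) (hΩ : IsOpen Ω) (hne : Ω.Nonempty) :
    ∃ (f : R3 → R3) (g : R3 → Matrix (Fin 3) (Fin 3) ℝ),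
      Continuous f ∧ IsOpenMap f ∧ IsDiscreteMap f ∧
      (∀ D : Set R3, IsOpen D → Bornology.IsBounded D → SobolevOneOne D f g) ∧
      0 < volume {x | x ∈ Ω ∧ 0 < (g x).det} ∧
      0 < volume {x | x ∈ Ω ∧ (g x).det < 0} ∧
      0 < volume {x | x ∈ Ω ∧ g x = 1} ∧
      ∃ U : Set R3, IsOpen U ∧ U.Nonempty ∧ U ⊆ Ω ∧ ∀ x ∈ U, (g x).det = -1 := by
  obtain ⟨F, G, C, R, hFc, hFo, hFd, hGi, hGw, hCcl, hCb, hCpos, hC1, hRo, hRne, hRb, hR1⟩ :=
    JAC.global_map
  obtain ⟨x₀, hx₀⟩ := hne
  obtain ⟨r, hr, hrΩ⟩ := Metric.isOpen_iff.mp hΩ x₀ hx₀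
  have hr0 : r ≠ 0 := hr.ne'
  set T : R3 → R3 := fun x => r⁻¹ • (x - x₀) with hT
  set S : R3 → R3 := fun y => x₀ + r • y with hS
  have hTc : Continuous T := by fun_prop
  have hSc : Continuous S := by fun_prop
  have hTS : ∀ y, T (S y) = y := fun y => by simp [hT, hS, smul_smul, hr0]
  have hST : ∀ x, S (T x) = x := fun x => by simp [hT, hS, smul_smul, hr0]
  have hTm : MeasurePreserving T volume (ENNReal.ofReal (|r ^ 3|) • volume) := by
    refine ⟨hTc.measurable, ?_⟩
    have h1 : Measure.map (fun x : R3 => x - x₀) volume = volume :=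
      (measurePreserving_sub_right volume x₀).map_eq
    have h2 : T = (fun x : R3 => r⁻¹ • x) ∘ (fun x : R3 => x - x₀) := rfl
    rw [h2, ← Measure.map_map (by fun_prop) (by fun_prop), h1,
      Measure.map_addHaar_smul volume (inv_ne_zero hr0)]
    simp
  have hvol : ∀ A : Set R3, MeasurableSet A → 0 < volume A → 0 < volume (T ⁻¹' A) := by
    intro A hA hpos
    rw [hTm.measure_preimage hA.nullMeasurableSet]
    simp only [Measure.smul_apply, smul_eq_mul]
    refine ENNReal.mul_pos ?_ hpos.ne'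
    rw [ne_eq, ENNReal.ofReal_eq_zero, not_le]
    positivity
  have hball : ∀ A : Set R3, A ⊆ Metric.ball 0 1 → T ⁻¹' A ⊆ Ω := by
    intro A hA x hx
    apply hrΩ
    have h1 : ‖T x‖ < 1 := by simpa using hA hx
    have h2 : ‖T x‖ = r⁻¹ * ‖x - x₀‖ := by
      simp only [hT, norm_smul, norm_inv, Real.norm_eq_abs, abs_of_pos hr]
    rw [h2, inv_mul_lt_iff₀ hr, mul_one] at h1
    rwa [Metric.mem_ball, dist_eq_norm]
  have hGT : ∀ (ρ : ℝ) (i j : Fin 3), IntegrableOn (fun x => G (T x) i j) (Metric.ball 0 ρ) := by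
    intro ρ i j
    have h1 : IntegrableOn (fun x => G x i j) (Metric.ball 0 (r⁻¹ * (ρ + ‖x₀‖)))
        (ENNReal.ofReal (|r ^ 3|) • volume) := by
      unfold IntegrableOn
      rw [Measure.restrict_smul]
      exact (hGi _ i j).smul_measure ENNReal.ofReal_ne_top
    have hemb : MeasurableEmbedding T :=
      (Homeomorph.mk ⟨T, S, hST, hTS⟩ hTc hSc).measurableEmbedding
    have h2 := (hTm.integrableOn_comp_preimage hemb (f := fun x => G x i j)
      (s := Metric.ball 0 (r⁻¹ * (ρ + ‖x₀‖)))).mpr h1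
    refine IntegrableOn.mono_set (h2 : IntegrableOn (fun x => G (T x) i j) _ _) ?_
    intro x hx
    simp only [mem_preimage, Metric.mem_ball, dist_zero_right] at hx ⊢
    have h3 : ‖T x‖ = r⁻¹ * ‖x - x₀‖ := by
      simp only [hT, norm_smul, norm_inv, Real.norm_eq_abs, abs_of_pos hr]
    rw [h3]
    have : ‖x - x₀‖ < ρ + ‖x₀‖ := lt_of_le_of_lt (norm_sub_le _ _) (by linarith)
    gcongr
  have hfc : Continuous (fun x => S (F (T x))) := hSc.comp (hFc.comp hTc)
  -- the weak differential on the whole space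
  have hweak : ∀ (i j : Fin 3) (φ : R3 → ℝ),
      ContDiff ℝ ((⊤ : ℕ∞) : WithTop ℕ∞) φ → HasCompactSupport φ →
      ∫ x, S (F (T x)) i * (fderiv ℝ φ x) (Pi.single j (1 : ℝ)) = -∫ x, G (T x) i j * φ x := by
    intro i j φ hφ hφs
    set ψ : R3 → ℝ := fun y => φ (S y) with hψdef
    have hSd : ContDiff ℝ ((⊤ : ℕ∞) : WithTop ℕ∞) S := contDiff_const.add (contDiff_id.const_smul r)
    have hψ : ContDiff ℝ ((⊤ : ℕ∞) : WithTop ℕ∞) ψ := hφ.comp hSd
    have hψs : HasCompactSupport ψ :=
      hφs.comp_homeomorph (Homeomorph.mk ⟨S, T, hTS, hST⟩ hSc hTc)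
    have hder : ∀ y, fderiv ℝ ψ y (Pi.single j (1 : ℝ)) =
        r * fderiv ℝ φ (S y) (Pi.single j (1 : ℝ)) := by
      intro y
      have h1 : HasFDerivAt S (r • ContinuousLinearMap.id ℝ R3) y :=
        ((hasFDerivAt_id y).const_smul r).const_add x₀
      have h2 : HasFDerivAt ψ ((fderiv ℝ φ (S y)).comp (r • ContinuousLinearMap.id ℝ R3)) y :=
        (hφ.differentiable (by simp) (S y)).hasFDerivAt.comp y h1
      rw [h2.fderiv]
      simp
    have hl : ∀ x, S (F (T x)) i * (fderiv ℝ φ x) (Pi.single j (1 : ℝ)) =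
        (fun y => (x₀ i * r⁻¹) * fderiv ℝ ψ y (Pi.single j (1 : ℝ)) +
          F y i * fderiv ℝ ψ y (Pi.single j (1 : ℝ))) (r⁻¹ • (x - x₀)) := by
      intro x
      change S (F (T x)) i * _ = (x₀ i * r⁻¹) * fderiv ℝ ψ (T x) (Pi.single j (1 : ℝ)) +
        F (T x) i * fderiv ℝ ψ (T x) (Pi.single j (1 : ℝ))
      rw [hder, hST]
      simp only [hS, Pi.add_apply, Pi.smul_apply, smul_eq_mul]
      field_simp
    have hrt : ∀ x, G (T x) i j * φ x = (fun y => G y i j * ψ y) (r⁻¹ • (x - x₀)) := by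
      intro x
      change _ = G (T x) i j * φ (S (T x))
      rw [hST]
    have hcψ : Continuous (fun x => fderiv ℝ ψ x (Pi.single j (1 : ℝ))) :=
      (hψ.continuous_fderiv (by simp)).clm_apply continuous_const
    have hsψ : HasCompactSupport (fun x => fderiv ℝ ψ x (Pi.single j (1 : ℝ))) :=
      hψs.fderiv_apply (𝕜 := ℝ) _
    simp_rw [hl, hrt]
    rw [integral_affine (fun y => (x₀ i * r⁻¹) * fderiv ℝ ψ y (Pi.single j (1 : ℝ)) +
          F y i * fderiv ℝ ψ y (Pi.single j (1 : ℝ))), integral_affine (fun y => G y i j * ψ y),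
      integral_add, integral_const_mul, integral_fderiv_zero ψ hψ hψs, hGw i j ψ hψ hψs]
    · ring
    · exact (hcψ.integrable_of_hasCompactSupport hsψ).const_mul _
    · exact (((continuous_apply i).comp hFc).mul hcψ).integrable_of_hasCompactSupport
        hsψ.mul_left
  have hpos1 : 0 < volume {x | x ∈ Ω ∧ G (T x) = 1} := by
    refine lt_of_lt_of_le (hvol C hCcl.measurableSet hCpos) (measure_mono ?_)
    intro x hx
    exact ⟨hball C hCb hx, (hC1 _ hx).2⟩
  have hU : ∀ x ∈ T ⁻¹' R, (G (T x)).det = -1 := by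
    intro x hx
    rw [(hR1 _ hx).2, Matrix.det_fin_three]
    simp
  have hUo : IsOpen (T ⁻¹' R) := hRo.preimage hTc
  have hUne : (T ⁻¹' R).Nonempty := by
    obtain ⟨y, hy⟩ := hRne
    exact ⟨S y, by simpa [hTS] using hy⟩
  refine ⟨fun x => S (F (T x)), fun x => G (T x), hfc, ?_, ?_, ?_, ?_, ?_, hpos1,
    T ⁻¹' R, hUo, hUne, hball R hRb, hU⟩
  · exact ((Homeomorph.mk ⟨S, T, hTS, hST⟩ hSc hTc).isOpenMap).comp
      (hFo.comp (Homeomorph.mk ⟨T, S, hST, hTS⟩ hTc hSc).isOpenMap)
  · intro x y hacc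
    rw [accPt_iff_frequently] at hacc
    have h1 := hFd (T x) (T y)
    have h2 : Tendsto T (𝓝[≠] x) (𝓝[≠] (T x)) := by
      apply tendsto_nhdsWithin_of_tendsto_nhds_of_eventually_within
      · exact hTc.continuousAt.mono_left nhdsWithin_le_nhds
      · filter_upwards [self_mem_nhdsWithin] with z hz
        intro hcon
        apply hz
        have := congrArg S hcon
        simpa [hST] using this
    have h3 := h2.eventually h1
    rw [eventually_nhdsWithin_iff] at h3
    apply hacc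
    filter_upwards [h3] with z hz
    rintro ⟨hzx, hzy⟩
    apply hz hzx
    simp only [mem_preimage, mem_singleton_iff] at hzy
    have := congrArg T hzy
    simpa [hTS] using this
  · intro D hDo hDb
    obtain ⟨ρ, hρ⟩ := hDb.subset_ball (0 : R3)
    refine ⟨?_, ?_, ?_⟩
    · intro i
      have h1 : IntegrableOn (fun x => S (F (T x)) i) (Metric.closedBall 0 ρ) :=
        ((continuous_apply i).comp hfc).continuousOn.integrableOn_compact
          (isCompact_closedBall _ _)
      exact h1.mono_set (hρ.trans Metric.ball_subset_closedBall)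
    · intro i j
      exact (hGT ρ i j).mono_set hρ
    · intro i j φ hφ hφs hφD
      rw [setIntegral_eq_integral_of_forall_compl_eq_zero,
        setIntegral_eq_integral_of_forall_compl_eq_zero]
      · exact hweak i j φ hφ hφs
      · intro x hx
        rw [image_eq_zero_of_notMem_tsupport (fun h => hx (hφD h)), mul_zero]
      · intro x hx
        have h1 : x ∉ tsupport (fun x => fderiv ℝ φ x (Pi.single j (1 : ℝ))) := by
          intro h
          exact hx (hφD (tsupport_fderiv_apply_subset ℝ _ h))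
        have h2 : fderiv ℝ φ x (Pi.single j (1 : ℝ)) = 0 :=
          image_eq_zero_of_notMem_tsupport (f := fun x => fderiv ℝ φ x (Pi.single j (1 : ℝ))) h1
        rw [h2, mul_zero]
  · refine lt_of_lt_of_le hpos1 (measure_mono ?_)
    rintro x ⟨hx, hx1⟩
    refine ⟨hx, ?_⟩
    change 0 < (G (T x)).det
    rw [hx1, Matrix.det_one]
    exact zero_lt_one
  · refine lt_of_lt_of_le (hUo.measure_pos volume hUne) (measure_mono ?_)
    intro x hx
    refine ⟨hball R hRb hx, ?_⟩
    change (G (T x)).det < 0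
    rw [hU x hx]
    norm_num

end Pool.Agent.Results.MP_3b5712_an.SignChange
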